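import Pool.Agent.Helper84.HD.St

/-!
# Project HD, module DE (helper51): Davenport-Erdos

The proof of `Pool.Agent.Helper84.HD.StDE`: the lower density of the set of multiples of `B` is approximated by
the densities of the sets of multiples of the finite parts of `B`.
-/

set_option autoImplicit false

namespace Pool.Agent.Helper51.HD

open Finset Filter Topology Pool.Agent.Helper84.HD
open Pool.Agent.Helper4.DE (C Lg LogDens IsMultClosed t D Z)
open Pool.Agent.Helper4.DE

lemma mb_closed (B : Set ℕ) : IsMultClosed (MB B) := by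
  rintro a ⟨ha, b, hb, hba⟩ c hc
  exact ⟨Nat.mul_pos ha hc, b, hb, hba.mul_right c⟩

lemma gS_mb_eq (B : Set ℕ) (δ : ℝ) {a T : ℕ} (ha : a < T) :
    gS δ (MB B) a = gS δ (MB (B ∩ Set.Iic T)) a := by
  classical
  have h : a ∈ MB B ↔ a ∈ MB (B ∩ Set.Iic T) := by
    constructor
    · rintro ⟨h0, b, hb, hba⟩
      exact ⟨h0, b, ⟨hb, (Nat.le_of_dvd h0 hba).trans ha.le⟩, hba⟩
    · rintro ⟨h0, b, hb, hba⟩
      exact ⟨h0, b, hb.1, hba⟩
  simp only [gS, ArithmeticFunction.coe_mk, h]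

lemma D_mb_le {B : Set ℕ} {s δ : ℝ} (hδ : 0 < δ) (hs : ∀ T : ℕ, t (MB (B ∩ Set.Iic T)) ≤ s) :
    D (MB B) δ ≤ s * Z δ := by
  unfold D
  apply Real.tsum_le_of_sum_range_le
  · intro n
    exact div_nonneg (gS_nonneg δ _ n) (by positivity)
  · intro n
    calc ∑ a ∈ range n, gS δ (MB B) a / a
        = ∑ a ∈ range n, gS δ (MB (B ∩ Set.Iic n)) a / a := by
          apply Finset.sum_congr rfl
          intro a ha
          rw [gS_mb_eq B δ (Finset.mem_range.mp ha)]
      _ ≤ D (MB (B ∩ Set.Iic n)) δ := by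
          apply (summable_gS_div hδ _).sum_le_tsum
          intro a _
          exact div_nonneg (gS_nonneg δ _ a) (by positivity)
      _ ≤ t (MB (B ∩ Set.Iic n)) * Z δ := D_le hδ (mb_closed _)
      _ ≤ s * Z δ := mul_le_mul_of_nonneg_right (hs n) (Z_nonneg δ)

lemma D_ge {δ : ℝ} (hδ : 0 < δ) {S : Set ℕ} {η : ℝ} (hη : 0 < η) {n0 : ℕ}
    (hn0 : ∀ n, n0 ≤ n → t S - η < C S n / n) :
    t S * Z δ - η * Z δ - n0 * n0 ≤ D S δ := by
  have hw1 : ∀ n : ℕ, w δ n ≤ n := by
    intro n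
    by_cases hn : n = 0
    · simp [w, hn]
    · unfold w
      have h1 : u δ n ≤ 1 := by
        unfold u
        apply inv_le_one_of_one_le₀
        apply Real.one_le_rpow _ (by linarith)
        exact_mod_cast Nat.one_le_iff_ne_zero.mpr hn
      have h2 := u_nonneg δ (n + 1)
      have : (0:ℝ) ≤ n := by positivity
      nlinarith
  have key : ∀ n : ℕ, -(η * w δ (n + 1)) - (if n + 1 < n0 then (n0 : ℝ) else 0)
      ≤ w δ (n + 1) * (C S (n + 1) / ((n + 1 : ℕ) : ℝ) - t S) := by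
    intro n
    have hw := w_nonneg hδ (n + 1)
    have hr := ratio_nonneg S (n + 1)
    have ht1 := t_le_one S
    have h4 : 0 ≤ η * w δ (n + 1) := by positivity
    by_cases hn : n + 1 < n0
    · rw [if_pos hn]
      have h7 : w δ (n + 1) ≤ n0 := by
        refine (hw1 (n + 1)).trans ?_
        exact_mod_cast hn.le
      have h8 : -(w δ (n + 1)) ≤ w δ (n + 1) * (C S (n + 1) / ((n + 1 : ℕ) : ℝ) - t S) := by
        nlinarith
      linarith
    · rw [if_neg hn]
      have h9 := hn0 (n + 1) (by omega)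
      nlinarith
  have hs2 : HasSum (fun n : ℕ => (if n + 1 < n0 then (n0 : ℝ) else 0))
      (∑ n ∈ range n0, (if n + 1 < n0 then (n0 : ℝ) else 0)) := by
    apply hasSum_sum_of_ne_finset_zero
    intro n hn
    rw [if_neg]
    simp only [Finset.mem_range] at hn
    omega
  have hle := hasSum_le key (((hasSum_w hδ).mul_left η).neg.sub hs2) (sum_w_le hδ)
  have h3 : ∑ n ∈ range n0, (if n + 1 < n0 then (n0 : ℝ) else 0) ≤ n0 * n0 := by
    calc ∑ n ∈ range n0, (if n + 1 < n0 then (n0 : ℝ) else 0) ≤ ∑ n ∈ range n0, (n0 : ℝ) := by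
          apply Finset.sum_le_sum
          intro i _
          split_ifs
          · exact le_rfl
          · positivity
      _ = n0 * n0 := by simp
  linarith

lemma t_mb_le {B : Set ℕ} {s : ℝ} (hs : ∀ T : ℕ, t (MB (B ∩ Set.Iic T)) ≤ s) : t (MB B) ≤ s := by
  by_contra hcon
  push Not at hcon
  set η : ℝ := (t (MB B) - s) / 2 with hηdef
  have hη : 0 < η := by rw [hηdef]; linarith
  obtain ⟨n0, hn0⟩ := eventually_atTop.mp (eventually_gt (MB B) hη)
  have h1 : ∀ δ : ℝ, 0 < δ → η * (δ * Z δ) ≤ δ * (n0 * n0) := by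
    intro δ hδ
    have h2 := D_ge hδ hη hn0
    have h3 := D_mb_le hδ hs
    have h4 : η * Z δ ≤ n0 * n0 := by
      have h5 : t (MB B) = s + 2 * η := by rw [hηdef]; ring
      rw [h5] at h2
      nlinarith
    calc η * (δ * Z δ) = δ * (η * Z δ) := by ring
      _ ≤ δ * (n0 * n0) := by gcongr
  have h2 : Tendsto (fun δ : ℝ => η * (δ * Z δ)) (𝓝[>] 0) (𝓝 (η * 1)) := Z_tendsto.const_mul η
  have h3 : Tendsto (fun δ : ℝ => δ * ((n0 : ℝ) * n0)) (𝓝[>] 0) (𝓝 (0 * ((n0 : ℝ) * n0))) :=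
    (tendsto_id.mono_left nhdsWithin_le_nhds).mul_const _
  have h4 := le_of_tendsto_of_tendsto h2 h3 (by
    filter_upwards [self_mem_nhdsWithin] with δ hδ
    exact h1 δ hδ)
  linarith

theorem hDE : StDE := by
  intro B ε hε
  by_contra hcon
  push Not at hcon
  have h := t_mb_le (B := B) (s := t (MB B) - ε) (fun T => by have := hcon T; linarith)
  linarith

end Pool.Agent.Helper51.HD
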